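import Pool.Agent.Work.MP_41df87_co.Defs

/-!
# Balanced cuts from clique-width constructions
-/

namespace Pool.Agent.Work.MP_41df87_co

open SimpleGraph

theorem CW.finite {k : ℕ} {V : Type} {G : SimpleGraph V} {l : V → Fin k} (h : CW k V G l) :
    Finite V := by
  induction h with
  | vertex i => infer_instance
  | union _ _ ih₁ ih₂ => infer_instance
  | join i j _ _ ih => exact ih
  | relabel i j _ ih => exact ih
  | iso e _ ih => exact Finite.of_equiv _ e.toEquiv

/-- In a graph built with `k` labels there is, for every size `a` from `1` to the number of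
vertices, a set `X` of between `a` and `2 a - 1` vertices whose vertices have at most `k`
different neighbourhoods outside `X`. -/
theorem CW.exists_cut {k : ℕ} {V : Type} {G : SimpleGraph V} {l : V → Fin k} (h : CW k V G l)
    (a : ℕ) (ha : 1 ≤ a) (hcard : a ≤ Nat.card V) :
    ∃ X : Set V, a ≤ X.ncard ∧ X.ncard < 2 * a ∧ ∃ col : V → Fin k,
      ∀ u ∈ X, ∀ v ∈ X, col u = col v → l u = l v ∧ ∀ w, w ∉ X → (G.Adj u w ↔ G.Adj v w) := by
  induction h with
  | vertex i =>
    have h1 : Nat.card Unit = 1 := by simp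
    refine ⟨Set.univ, ?_, ?_, fun _ => i, ?_⟩
    · rw [Set.ncard_univ]; exact hcard
    · rw [Set.ncard_univ, h1]; omega
    · intro u _ v _ _
      exact ⟨rfl, fun w hw => absurd (Set.mem_univ w) hw⟩
  | @union V W G H l l' h₁ h₂ ih₁ ih₂ =>
    have f₁ := h₁.finite
    have f₂ := h₂.finite
    rw [Nat.card_sum] at hcard
    by_cases hlt : Nat.card V + Nat.card W < 2 * a
    · refine ⟨Set.univ, ?_, ?_, Sum.elim l l', ?_⟩
      · rw [Set.ncard_univ, Nat.card_sum]; exact hcard
      · rw [Set.ncard_univ, Nat.card_sum]; exact hlt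
      · intro u _ v _ huv
        exact ⟨huv, fun w hw => absurd (Set.mem_univ w) hw⟩
    · rcases le_or_gt a (Nat.card V) with hV | hV
      · obtain ⟨X, hX1, hX2, col, hcol⟩ := ih₁ hV
        refine ⟨Sum.inl '' X, ?_, ?_, Sum.elim col l', ?_⟩
        · rw [Set.ncard_image_of_injective _ Sum.inl_injective]; exact hX1
        · rw [Set.ncard_image_of_injective _ Sum.inl_injective]; exact hX2
        · rintro _ ⟨u, hu, rfl⟩ _ ⟨v, hv, rfl⟩ huv
          obtain ⟨h1, h2⟩ := hcol u hu v hv huv
          refine ⟨h1, ?_⟩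
          rintro (w | w) hw
          · have : w ∉ X := fun hw' => hw ⟨w, hw', rfl⟩
            simpa [SimpleGraph.sum] using h2 w this
          · simp [SimpleGraph.sum]
      · have hW : a ≤ Nat.card W := by omega
        obtain ⟨X, hX1, hX2, col, hcol⟩ := ih₂ hW
        refine ⟨Sum.inr '' X, ?_, ?_, Sum.elim l col, ?_⟩
        · rw [Set.ncard_image_of_injective _ Sum.inr_injective]; exact hX1
        · rw [Set.ncard_image_of_injective _ Sum.inr_injective]; exact hX2
        · rintro _ ⟨u, hu, rfl⟩ _ ⟨v, hv, rfl⟩ huv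
          obtain ⟨h1, h2⟩ := hcol u hu v hv huv
          refine ⟨h1, ?_⟩
          rintro (w | w) hw
          · simp [SimpleGraph.sum]
          · have : w ∉ X := fun hw' => hw ⟨w, hw', rfl⟩
            simpa [SimpleGraph.sum] using h2 w this
  | join i j hij _ ih =>
    obtain ⟨X, hX1, hX2, col, hcol⟩ := ih hcard
    refine ⟨X, hX1, hX2, col, ?_⟩
    intro u hu v hv huv
    obtain ⟨h1, h2⟩ := hcol u hu v hv huv
    refine ⟨h1, ?_⟩
    intro w hw
    have huw : u ≠ w := by rintro rfl; exact hw hu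
    have hvw : v ≠ w := by rintro rfl; exact hw hv
    simp only [sup_adj, fromRel_adj, h2 w hw, h1]
    tauto
  | relabel i j _ ih =>
    obtain ⟨X, hX1, hX2, col, hcol⟩ := ih hcard
    refine ⟨X, hX1, hX2, col, ?_⟩
    intro u hu v hv huv
    obtain ⟨h1, h2⟩ := hcol u hu v hv huv
    refine ⟨?_, h2⟩
    simp only [h1]
  | iso e hh ih =>
    rw [← Nat.card_congr e.toEquiv] at hcard
    obtain ⟨X, hX1, hX2, col, hcol⟩ := ih hcard
    refine ⟨e '' X, ?_, ?_, fun w => col (e.symm w), ?_⟩
    · rw [Set.ncard_image_of_injective _ e.injective]; exact hX1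
    · rw [Set.ncard_image_of_injective _ e.injective]; exact hX2
    · rintro _ ⟨u, hu, rfl⟩ _ ⟨v, hv, rfl⟩ huv
      simp only [RelIso.symm_apply_apply] at huv ⊢
      obtain ⟨h1, h2⟩ := hcol u hu v hv huv
      refine ⟨h1, ?_⟩
      intro w hw
      obtain ⟨w, rfl⟩ := e.surjective w
      have : w ∉ X := fun hw' => hw ⟨w, hw', rfl⟩
      rw [e.map_adj_iff, e.map_adj_iff]
      exact h2 w this

end Pool.Agent.Work.MP_41df87_co
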