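import Mathlib

/-!
# Definitions for MP_41df87_co: clique-width, monotone partitions, box graphs
-/

namespace Pool.Agent.Work.MP_41df87_co

open SimpleGraph

/-- `CW k V G l` says that the graph `G` together with the labelling `l` of its vertices by
`k` labels can be built by the four clique-width operations: create a single labelled vertex;
take the disjoint union of two labelled graphs; for labels `i ≠ j` add every edge between a
vertex labelled `i` and a vertex labelled `j`; change every label `i` into label `j`.
(The constructor `iso` only renames the vertices.) -/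
inductive CW (k : ℕ) : (V : Type) → SimpleGraph V → (V → Fin k) → Prop
  | vertex (i : Fin k) : CW k Unit ⊥ (fun _ => i)
  | union {V W : Type} {G : SimpleGraph V} {H : SimpleGraph W} {l : V → Fin k} {l' : W → Fin k} :
      CW k V G l → CW k W H l' → CW k (V ⊕ W) (G ⊕g H) (Sum.elim l l')
  | join {V : Type} {G : SimpleGraph V} {l : V → Fin k} (i j : Fin k) : i ≠ j →
      CW k V G l → CW k V (G ⊔ SimpleGraph.fromRel (fun x y => l x = i ∧ l y = j)) l
  | relabel {V : Type} {G : SimpleGraph V} {l : V → Fin k} (i j : Fin k) :
      CW k V G l → CW k V G (fun v => if l v = i then j else l v)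
  | iso {V W : Type} {G : SimpleGraph V} {H : SimpleGraph W} {l : V → Fin k} (e : G ≃g H) :
      CW k V G l → CW k W H (fun w => l (e.symm w))

/-- The clique-width of `G` is at most `k`. -/
def CliqueWidthLE (k : ℕ) {V : Type} (G : SimpleGraph V) : Prop :=
  ∃ l : V → Fin k, CW k V G l

/-- `X` is uniform to `Y`: either every vertex of `X` is adjacent to every vertex of `Y`, or no
edge joins `X` and `Y`. -/
def UniformTo {V : Type} (G : SimpleGraph V) (X Y : Set V) : Prop :=
  (∀ x ∈ X, ∀ y ∈ Y, G.Adj x y) ∨ (∀ x ∈ X, ∀ y ∈ Y, ¬ G.Adj x y)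

/-- `X` is monotone to `Y`: the neighbourhoods in `Y` of the vertices of `X` form a chain. -/
def MonotoneTo {V : Type} (G : SimpleGraph V) (X Y : Set V) : Prop :=
  ∀ u ∈ X, ∀ v ∈ X, G.neighborSet u ∩ Y ⊆ G.neighborSet v ∩ Y ∨
    G.neighborSet v ∩ Y ⊆ G.neighborSet u ∩ Y

/-- The `i`-th part of the partition of `V` given by `P : V → Fin k`. -/
def part {V : Type} {k : ℕ} (P : V → Fin k) (i : Fin k) : Set V := {v | P v = i}

/-- `P` is a monotone partition of the vertex set into `k` (nonempty) cliques. -/
def IsMonotoneCliquePartition {V : Type} {k : ℕ} (G : SimpleGraph V) (P : V → Fin k) : Prop :=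
  Function.Surjective P ∧ (∀ i, G.IsClique (part P i)) ∧
    ∀ i, MonotoneTo G (part P i) (part P i)ᶜ

/-- The box graph: its vertices are the parts, and two parts are adjacent when they are not
uniform to each other. -/
def boxGraph {V : Type} {k : ℕ} (G : SimpleGraph V) (P : V → Fin k) : SimpleGraph (Fin k) where
  Adj i j := i ≠ j ∧ ¬ UniformTo G (part P i) (part P j)
  symm := ⟨by
    rintro i j ⟨hij, h⟩
    refine ⟨hij.symm, fun h' => h ?_⟩
    rcases h' with h' | h'
    · exact Or.inl fun x hx y hy => (h' y hy x hx).symm
    · exact Or.inr fun x hx y hy hxy => h' y hy x hx hxy.symm⟩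
  loopless := ⟨fun _ h => h.1 rfl⟩

end Pool.Agent.Work.MP_41df87_co
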