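import Pool.Agent.Work.MP_41df87_co.Balanced

/-!
# The graphs `spiral m` and the lower bound on their clique-width
-/

namespace Pool.Agent.Work.MP_41df87_co

open SimpleGraph

/-- Vertices with few different neighbourhoods outside `X`. -/
theorem card_le_of_dist {V : Type} {G : SimpleGraph V} {c : ℕ} {X : Set V} {col : V → Fin c}
    (hcol : ∀ u ∈ X, ∀ v ∈ X, col u = col v → ∀ w, w ∉ X → (G.Adj u w ↔ G.Adj v w))
    (I : Finset ℕ) (u : ℕ → V) (hu : ∀ t ∈ I, u t ∈ X)
    (hd : ∀ s ∈ I, ∀ t ∈ I, s < t → ∃ w, w ∉ X ∧ ¬ (G.Adj (u s) w ↔ G.Adj (u t) w)) :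
    I.card ≤ c := by
  have h1 : I.card ≤ (Finset.univ : Finset (Fin c)).card := by
    apply Finset.card_le_card_of_injOn (fun t => col (u t)) (fun _ _ => Finset.mem_univ _)
    intro s hs t ht hst
    simp only at hst
    rcases lt_trichotomy s t with h | h | h
    · obtain ⟨w, hw, hne⟩ := hd s hs t ht h
      exact absurd (hcol _ (hu s hs) _ (hu t ht) hst w hw) hne
    · exact h
    · obtain ⟨w, hw, hne⟩ := hd t ht s hs h
      exact absurd (hcol _ (hu t ht) _ (hu s hs) hst.symm w hw) hne
  simpa using h1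

open Classical in
/-- The set of points of `s` where `p` and `q` disagree. -/
noncomputable def disSet (s : Finset ℕ) (p q : ℕ → Prop) : Finset ℕ :=
  s.filter (fun x => ¬ (p x ↔ q x))

theorem mem_disSet {s : Finset ℕ} {p q : ℕ → Prop} {x : ℕ} :
    x ∈ disSet s p q ↔ x ∈ s ∧ ¬ (p x ↔ q x) := by
  simp [disSet]

/-- The number of points of `s` where `p` and `q` disagree. -/
noncomputable def dis (s : Finset ℕ) (p q : ℕ → Prop) : ℕ := (disSet s p q).card

open Classical in
/-- Matched pairs between two sequences with a half-graph between them are mostly on the same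
side of the cut. -/
theorem mismatch {V : Type} {G : SimpleGraph V} {c : ℕ} {X : Set V} {col : V → Fin c}
    (hcol : ∀ u ∈ X, ∀ v ∈ X, col u = col v → ∀ w, w ∉ X → (G.Adj u w ↔ G.Adj v w))
    (I : Finset ℕ) (A B : ℕ → V)
    (hlt : ∀ s ∈ I, ∀ t ∈ I, s < t → G.Adj (A t) (B s) ∧ ¬ G.Adj (A s) (B t))
    (hE : (∀ t ∈ I, G.Adj (A t) (B t)) ∨ (∀ t ∈ I, ¬ G.Adj (A t) (B t))) :
    dis I (fun t => A t ∈ X) (fun t => B t ∈ X) ≤ 2 * c := by
  have h1 : (I.filter (fun t => A t ∈ X ∧ B t ∉ X)).card ≤ c := by
    apply card_le_of_dist hcol _ A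
    · intro t ht
      exact (Finset.mem_filter.1 ht).2.1
    · intro s hs t ht hst
      obtain ⟨hs1, hs2, hs3⟩ := Finset.mem_filter.1 hs
      obtain ⟨ht1, ht2, ht3⟩ := Finset.mem_filter.1 ht
      obtain ⟨h1, h2⟩ := hlt s hs1 t ht1 hst
      rcases hE with hE | hE
      · exact ⟨B t, ht3, fun h => h2 (h.2 (hE t ht1))⟩
      · exact ⟨B s, hs3, fun h => hE s hs1 (h.2 h1)⟩
  have h2 : (I.filter (fun t => A t ∉ X ∧ B t ∈ X)).card ≤ c := by
    apply card_le_of_dist hcol _ B
    · intro t ht
      exact (Finset.mem_filter.1 ht).2.2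
    · intro s hs t ht hst
      obtain ⟨hs1, hs2, hs3⟩ := Finset.mem_filter.1 hs
      obtain ⟨ht1, ht2, ht3⟩ := Finset.mem_filter.1 ht
      obtain ⟨h1, h2⟩ := hlt s hs1 t ht1 hst
      rcases hE with hE | hE
      · exact ⟨A s, hs2, fun h => h2 (h.1 (hE s hs1).symm).symm⟩
      · exact ⟨A t, ht2, fun h => hE t ht1 (h.1 h1.symm).symm⟩
  have h3 : disSet I (fun t => A t ∈ X) (fun t => B t ∈ X) ⊆
      I.filter (fun t => A t ∈ X ∧ B t ∉ X) ∪ I.filter (fun t => A t ∉ X ∧ B t ∈ X) := by
    intro t ht
    rw [Finset.mem_union, Finset.mem_filter, Finset.mem_filter]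
    obtain ⟨ht1, ht2⟩ := mem_disSet.1 ht
    tauto
  have h4 := (Finset.card_le_card h3).trans (Finset.card_union_le _ _)
  unfold dis
  omega

/-- The edges between different parts: `up u` is one of the parts `0`, `2` and `v` is in one of
the parts `1`, `3`. -/
def cross (m : ℕ) (u v : Fin 4 × Fin (m * m)) : Prop :=
  (u.1 = 0 ∨ u.1 = 2) ∧ (v.1 = 1 ∨ v.1 = 3) ∧
    (v.2 : ℕ) < (u.2 : ℕ) + (if u.1 = 0 ∧ v.1 = 3 then m else 0)

theorem cross_fst_ne {m : ℕ} {u v : Fin 4 × Fin (m * m)} (h : cross m u v) : u.1 ≠ v.1 := by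
  obtain ⟨h1, h2, _⟩ := h
  rcases h1 with h1 | h1 <;> rcases h2 with h2 | h2 <;> rw [h1, h2] <;> decide

/-- The graph with vertex set `Fin 4 × Fin (m * m)`, in which the four parts are cliques and the
vertex `(i, x)`, with `i = 0` or `2`, is adjacent to the vertex `(j, y)`, with `j = 1` or `3`,
iff `y < x`, or `y < x + m` if `i = 0` and `j = 3`. -/
def spiral (m : ℕ) : SimpleGraph (Fin 4 × Fin (m * m)) where
  Adj u v := (u.1 = v.1 ∧ u ≠ v) ∨ cross m u v ∨ cross m v u
  symm := ⟨by
    rintro u v (⟨h1, h2⟩ | h | h)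
    · exact Or.inl ⟨h1.symm, h2.symm⟩
    · exact Or.inr (Or.inr h)
    · exact Or.inr (Or.inl h)⟩
  loopless := ⟨by
    rintro u (⟨_, h⟩ | h | h)
    · exact h rfl
    · exact cross_fst_ne h rfl
    · exact cross_fst_ne h rfl⟩

/-- The vertex at position `x` of part `i`. -/
def pt {m : ℕ} (hm : 0 < m * m) (i : Fin 4) (x : ℕ) : Fin 4 × Fin (m * m) :=
  (i, ⟨x % (m * m), Nat.mod_lt _ hm⟩)

theorem adj_pt {m : ℕ} (hm : 0 < m * m) {i j : Fin 4} {x y : ℕ} (hx : x < m * m)
    (hy : y < m * m) (hi : i = 0 ∨ i = 2) (hj : j = 1 ∨ j = 3) :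
    (spiral m).Adj (pt hm i x) (pt hm j y) ↔ y < x + (if i = 0 ∧ j = 3 then m else 0) := by
  have h1 : i ≠ j := by
    rcases hi with hi | hi <;> rcases hj with hj | hj <;> rw [hi, hj] <;> decide
  have h2 : ¬ cross m (pt hm j y) (pt hm i x) := by
    rintro ⟨h, _, _⟩
    simp only [pt] at h
    rcases hj with hj | hj <;> rcases h with h | h <;> rw [hj] at h <;> revert h <;> decide
  simp only [spiral, h2, or_false]
  constructor
  · rintro (⟨h, _⟩ | ⟨_, _, h⟩)
    · exact absurd h h1
    · simpa only [pt, Nat.mod_eq_of_lt hx, Nat.mod_eq_of_lt hy] using h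
  · intro h
    refine Or.inr ⟨hi, hj, ?_⟩
    simpa only [pt, Nat.mod_eq_of_lt hx, Nat.mod_eq_of_lt hy] using h

/-- A purely combinatorial statement: a set of positions on `m * m` points with few changes
between `x` and `x + 1` and few changes between `x` and `x + m` is nearly trivial. -/
theorem nearly_const (m : ℕ) (hm : 0 < m) (p : ℕ → Prop) (b d : ℕ)
    (hb : dis (Finset.range (m * m - 1)) p (fun x => p (x + 1)) ≤ b)
    (hd : dis (Finset.range (m * m - m)) p (fun x => p (x + m)) ≤ d)
    (hbm : b < m) :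
    ∃ v : Prop, dis (Finset.range (m * m)) p (fun _ => v) ≤ d * m := by
  classical
  unfold dis at hb hd ⊢
  set B := disSet (Finset.range (m * m - 1)) p (fun x => p (x + 1)) with hB
  set D := disSet (Finset.range (m * m - m)) p (fun x => p (x + m)) with hD
  -- a window without changes
  obtain ⟨j, hj, hjB⟩ : ∃ j ∈ Finset.range m, j ∉ B.image (fun x => x / m) := by
    by_contra hcon
    push Not at hcon
    have h1 : Finset.range m ⊆ B.image (fun x => x / m) := hcon
    have h2 := Finset.card_le_card h1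
    rw [Finset.card_range] at h2
    have h3 := Finset.card_image_le (s := B) (f := fun x => x / m)
    omega
  rw [Finset.mem_range] at hj
  have hjm : (j + 1) * m ≤ m * m := Nat.mul_le_mul_right m hj
  have hwin : ∀ r, r < m → (p (j * m + r) ↔ p (j * m)) := by
    intro r
    induction r with
    | zero => intro _; simp
    | succ r ih =>
      intro hr
      have ih' := ih (by omega)
      have h1 : j * m + r ∉ B := by
        intro h
        apply hjB
        rw [Finset.mem_image]
        refine ⟨_, h, ?_⟩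
        rw [Nat.add_comm, Nat.add_mul_div_right _ _ hm, Nat.div_eq_of_lt (by omega)]
        omega
      have h2 : p (j * m + r) ↔ p (j * m + r + 1) := by
        by_contra hcon
        apply h1
        rw [hB, mem_disSet, Finset.mem_range]
        refine ⟨?_, hcon⟩
        have : (j + 1) * m = j * m + m := by ring
        omega
      rw [← ih', h2]
      rfl
  refine ⟨p (j * m), ?_⟩
  -- residue classes without changes
  have hres : ∀ r, r < m → r ∉ D.image (fun x => x % m) → ∀ i, i < m →
      (p (i * m + r) ↔ p r) := by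
    intro r hr hrD i
    induction i with
    | zero => intro _; simp
    | succ i ih =>
      intro hi
      have ih' := ih (by omega)
      have h0 : (i + 1) * m = i * m + m := by ring
      have h1 : i * m + r ∉ D := by
        intro h
        apply hrD
        rw [Finset.mem_image]
        refine ⟨_, h, ?_⟩
        rw [Nat.add_comm, Nat.add_mul_mod_self_right, Nat.mod_eq_of_lt hr]
      have hle : (i + 1 + 1) * m ≤ m * m := Nat.mul_le_mul_right m hi
      have h00 : (i + 1 + 1) * m = i * m + m + m := by ring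
      have h2 : p (i * m + r) ↔ p (i * m + r + m) := by
        by_contra hcon
        apply h1
        rw [hD, mem_disSet, Finset.mem_range]
        refine ⟨?_, hcon⟩
        omega
      rw [← ih', h2]
      have : (i + 1) * m + r = i * m + r + m := by ring
      rw [this]
  have hsub : disSet (Finset.range (m * m)) p (fun _ => p (j * m))
      ⊆ (D ×ˢ Finset.range m).image (fun q => q.2 * m + q.1 % m) := by
    intro x hx
    rw [mem_disSet, Finset.mem_range] at hx
    obtain ⟨hx1, hx2⟩ := hx
    have hxm : x % m < m := Nat.mod_lt _ hm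
    have hxd : x / m < m := Nat.div_lt_of_lt_mul hx1
    have hxeq : x / m * m + x % m = x := Nat.div_add_mod' x m
    by_cases hr : x % m ∈ D.image (fun x => x % m)
    · obtain ⟨y, hy, hy'⟩ := Finset.mem_image.1 hr
      rw [Finset.mem_image]
      refine ⟨(y, x / m), ?_, ?_⟩
      · rw [Finset.mem_product, Finset.mem_range]
        exact ⟨hy, hxd⟩
      · simp only at hy' ⊢
        rw [hy']
        exact hxeq
    · exfalso
      apply hx2
      have h1 := hres _ hxm hr (x / m) hxd
      have h2 := hres _ hxm hr j hj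
      rw [hxeq] at h1
      rw [h1, ← h2]
      exact hwin _ hxm
  calc _ ≤ ((D ×ˢ Finset.range m).image (fun q => q.2 * m + q.1 % m)).card :=
        Finset.card_le_card hsub
    _ ≤ (D ×ˢ Finset.range m).card := Finset.card_image_le
    _ = D.card * m := by rw [Finset.card_product, Finset.card_range]
    _ ≤ d * m := Nat.mul_le_mul_right m hd

/-- Triangle inequality for the number of disagreements. -/
theorem disagree_trans (s : Finset ℕ) (p q r : ℕ → Prop) (a b : ℕ)
    (h1 : dis s p q ≤ a) (h2 : dis s q r ≤ b) : dis s p r ≤ a + b := by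
  classical
  unfold dis at *
  have h3 : disSet s p r ⊆ disSet s p q ∪ disSet s q r := by
    intro x hx
    rw [Finset.mem_union, mem_disSet, mem_disSet]
    obtain ⟨hx1, hx2⟩ := mem_disSet.1 hx
    tauto
  exact (Finset.card_le_card h3).trans ((Finset.card_union_le _ _).trans (add_le_add h1 h2))

theorem disagree_comm (s : Finset ℕ) (p q : ℕ → Prop) (a : ℕ)
    (h1 : dis s p q ≤ a) : dis s q p ≤ a := by
  refine le_trans (Finset.card_le_card ?_) h1
  intro x hx
  rw [mem_disSet] at hx ⊢
  tauto

theorem disagree_mono {s t : Finset ℕ} (hst : s ⊆ t) (p q : ℕ → Prop) (a : ℕ)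
    (h1 : dis t p q ≤ a) : dis s p q ≤ a := by
  refine le_trans (Finset.card_le_card ?_) h1
  intro x hx
  rw [mem_disSet] at hx ⊢
  exact ⟨hst hx.1, hx.2⟩

/-- Disagreements on a shifted interval. -/
theorem disagree_shift (n m : ℕ) (p q : ℕ → Prop) (a : ℕ)
    (h1 : dis (Finset.range n) p q ≤ a) :
    dis (Finset.range (n - m)) (fun x => p (x + m)) (fun x => q (x + m)) ≤ a := by
  refine le_trans ?_ h1
  apply Finset.card_le_card_of_injOn (fun x => x + m)
  · intro x hx
    rw [Finset.mem_coe, mem_disSet, Finset.mem_range] at hx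
    rw [Finset.mem_coe, mem_disSet, Finset.mem_range]
    refine ⟨?_, hx.2⟩
    have := hx.1
    show x + m < n
    omega
  · intro x _ y _ hxy
    simp only at hxy
    omega

/-- The lower bound on the clique-width. -/
theorem spiral_lower (m c : ℕ) (hm : 0 < m) (h : CliqueWidthLE c (spiral m)) : m ≤ 33 * c := by
  classical
  obtain ⟨l, hl⟩ := h
  have hN : 0 < m * m := Nat.mul_pos hm hm
  set N := m * m with hNdef
  have hcardV : Nat.card (Fin 4 × Fin N) = 4 * N := by simp
  have hmN : m ≤ N := Nat.le_mul_of_pos_left m hm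
  set a : ℕ := (4 * N + 2) / 3 with ha
  obtain ⟨X, hX1, hX2, col, hcol⟩ := hl.exists_cut a (by omega) (by rw [hcardV]; omega)
  have hcol' : ∀ u ∈ X, ∀ v ∈ X, col u = col v → ∀ w, w ∉ X →
      ((spiral m).Adj u w ↔ (spiral m).Adj v w) :=
    fun u hu v hv huv => (hcol u hu v hv huv).2
  by_contra hcon
  push Not at hcon
  -- the colour classes
  let χ : Fin 4 → ℕ → Prop := fun i x => pt hN i x ∈ X
  have e01 : dis (Finset.range N) (χ 0) (χ 1) ≤ 2 * c := by
    apply mismatch hcol' _ (fun x => pt hN 0 x) (fun x => pt hN 1 x)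
    · intro s hs t ht hst
      rw [Finset.mem_range] at hs ht
      rw [adj_pt hN ht hs (by decide) (by decide), adj_pt hN hs ht (by decide) (by decide)]
      simp
      omega
    · right
      intro t ht
      rw [Finset.mem_range] at ht
      rw [adj_pt hN ht ht (by decide) (by decide)]
      simp
  have e21 : dis (Finset.range N) (χ 2) (χ 1) ≤ 2 * c := by
    apply mismatch hcol' _ (fun x => pt hN 2 x) (fun x => pt hN 1 x)
    · intro s hs t ht hst
      rw [Finset.mem_range] at hs ht
      rw [adj_pt hN ht hs (by decide) (by decide), adj_pt hN hs ht (by decide) (by decide)]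
      simp
      omega
    · right
      intro t ht
      rw [Finset.mem_range] at ht
      rw [adj_pt hN ht ht (by decide) (by decide)]
      simp
  have e23 : dis (Finset.range N) (χ 2) (χ 3) ≤ 2 * c := by
    apply mismatch hcol' _ (fun x => pt hN 2 x) (fun x => pt hN 3 x)
    · intro s hs t ht hst
      rw [Finset.mem_range] at hs ht
      rw [adj_pt hN ht hs (by decide) (by decide), adj_pt hN hs ht (by decide) (by decide)]
      simp
      omega
    · right
      intro t ht
      rw [Finset.mem_range] at ht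
      rw [adj_pt hN ht ht (by decide) (by decide)]
      simp
  have e03 : dis (Finset.range (N - m)) (χ 0) (fun x => χ 3 (x + m)) ≤ 2 * c := by
    apply mismatch hcol' _ (fun x => pt hN 0 x) (fun x => pt hN 3 (x + m))
    · intro s hs t ht hst
      rw [Finset.mem_range] at hs ht
      rw [adj_pt hN (by omega) (by omega) (by decide) (by decide),
        adj_pt hN (by omega) (by omega) (by decide) (by decide)]
      simp
      omega
    · right
      intro t ht
      rw [Finset.mem_range] at ht
      rw [adj_pt hN (by omega) (by omega) (by decide) (by decide)]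
      simp
  have e01' : dis (Finset.range (N - 1)) (fun x => χ 0 (x + 1)) (χ 1) ≤ 2 * c := by
    apply mismatch hcol' _ (fun x => pt hN 0 (x + 1)) (fun x => pt hN 1 x)
    · intro s hs t ht hst
      rw [Finset.mem_range] at hs ht
      rw [adj_pt hN (by omega) (by omega) (by decide) (by decide),
        adj_pt hN (by omega) (by omega) (by decide) (by decide)]
      simp
      omega
    · left
      intro t ht
      rw [Finset.mem_range] at ht
      rw [adj_pt hN (by omega) (by omega) (by decide) (by decide)]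
      simp
  -- few changes between consecutive positions
  have hb : dis (Finset.range (N - 1)) (χ 0) (fun x => χ 0 (x + 1)) ≤ 2 * c + 2 * c := by
    have h1 : dis (Finset.range (N - 1)) (χ 0) (χ 1) ≤ 2 * c := by
      refine disagree_mono ?_ _ _ _ e01
      intro x hx
      rw [Finset.mem_range] at hx ⊢
      omega
    exact disagree_trans _ _ _ _ _ _ h1 (disagree_comm _ _ _ _ e01')
  -- few changes between positions at distance `m`
  have hd : dis (Finset.range (N - m)) (χ 0) (fun x => χ 0 (x + m))
      ≤ 2 * c + (2 * c + (2 * c + 2 * c)) := by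
    have h1 := disagree_shift N m (χ 2) (χ 3) _ e23
    have h2 := disagree_shift N m (χ 2) (χ 1) _ e21
    have h3 := disagree_shift N m (χ 0) (χ 1) _ e01
    have h4 := disagree_trans _ _ _ _ _ _ h2 (disagree_comm _ _ _ _ h3)
    have h5 := disagree_trans _ _ _ _ _ _ (disagree_comm _ _ _ _ h1) h4
    exact disagree_trans _ _ _ _ _ _ e03 h5
  obtain ⟨v, hv⟩ := nearly_const m hm (χ 0) _ _ hb hd (by omega)
  rw [← hNdef] at hv
  set Q := (2 * c + (2 * c + (2 * c + 2 * c))) * m with hQ
  have f0 : dis (Finset.range N) (χ 0) (fun _ => v) ≤ Q := hv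
  have f1 : dis (Finset.range N) (χ 1) (fun _ => v) ≤ 2 * c + Q :=
    disagree_trans _ _ _ _ _ _ (disagree_comm _ _ _ _ e01) f0
  have f2 : dis (Finset.range N) (χ 2) (fun _ => v) ≤ 2 * c + (2 * c + Q) :=
    disagree_trans _ _ _ _ _ _ e21 f1
  have f3 : dis (Finset.range N) (χ 3) (fun _ => v) ≤ 2 * c + (2 * c + (2 * c + Q)) :=
    disagree_trans _ _ _ _ _ _ (disagree_comm _ _ _ _ e23) f2
  -- the exceptional vertices
  have hall : ({u : Fin 4 × Fin N | ¬ (u ∈ X ↔ v)}).ncard ≤ 4 * Q + 12 * c := by
    let E : Fin 4 → Finset (Fin 4 × Fin N) := fun i =>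
      (disSet (Finset.range N) (χ i) (fun _ => v)).image (fun x => pt hN i x)
    have hset : {u : Fin 4 × Fin N | ¬ (u ∈ X ↔ v)} ⊆
        (E 0 ∪ E 1 ∪ E 2 ∪ E 3 : Finset (Fin 4 × Fin N)) := by
      rintro ⟨i, x⟩ hu
      have hpt : pt hN i x = (i, x) := by
        simp only [pt]
        congr 1
        apply Fin.ext
        exact Nat.mod_eq_of_lt x.2
      have hu' : ¬ (χ i x ↔ v) := by
        simp only [χ]
        rw [hpt]
        exact hu
      have hmem : (i, x) ∈ E i := by
        rw [Finset.mem_image]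
        refine ⟨x, ?_, hpt⟩
        rw [mem_disSet, Finset.mem_range]
        exact ⟨x.2, hu'⟩
      simp only [Finset.coe_union, Set.mem_union, Finset.mem_coe]
      fin_cases i
      · exact Or.inl (Or.inl (Or.inl hmem))
      · exact Or.inl (Or.inl (Or.inr hmem))
      · exact Or.inl (Or.inr hmem)
      · exact Or.inr hmem
    refine (Set.ncard_le_ncard hset (Finset.finite_toSet _)).trans ?_
    rw [Set.ncard_coe_finset]
    have g : ∀ i, (E i).card ≤ dis (Finset.range N) (χ i) (fun _ => v) :=
      fun i => Finset.card_image_le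
    have g0 := (g 0).trans f0
    have g1 := (g 1).trans f1
    have g2 := (g 2).trans f2
    have g3 := (g 3).trans f3
    have k1 := Finset.card_union_le (E 0) (E 1)
    have k2 := Finset.card_union_le (E 0 ∪ E 1) (E 2)
    have k3 := Finset.card_union_le (E 0 ∪ E 1 ∪ E 2) (E 3)
    omega
  -- both sides of the cut are large
  have hlarge : 4 * N - 1 ≤ 3 * ({u : Fin 4 × Fin N | ¬ (u ∈ X ↔ v)}).ncard := by
    by_cases hv' : v
    · have : {u : Fin 4 × Fin N | ¬ (u ∈ X ↔ v)} = Xᶜ := by
        ext u
        simp [hv']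
      rw [this]
      have h1 := Set.ncard_add_ncard_compl X
      rw [hcardV] at h1
      omega
    · have : {u : Fin 4 × Fin N | ¬ (u ∈ X ↔ v)} = X := by
        ext u
        simp [hv']
      rw [this]
      omega
  have hfin : 4 * (m * m) - 1 ≤ 3 * (4 * ((2 * c + (2 * c + (2 * c + 2 * c))) * m) + 12 * c) := by
    rw [← hNdef, ← hQ]
    omega
  have h1 : (33 * c + 1) * m ≤ m * m := Nat.mul_le_mul_right m hcon
  have h2 : c * 1 ≤ c * m := Nat.mul_le_mul_left c hm
  have e1 : (2 * c + (2 * c + (2 * c + 2 * c))) * m = 8 * (c * m) := by ring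
  have e2 : (33 * c + 1) * m = 33 * (c * m) + m := by ring
  rw [e1] at hfin
  rw [e2] at h1
  clear * - hfin h1 h2 hm
  generalize c * m = P at *
  generalize m * m = M at *
  omega

end Pool.Agent.Work.MP_41df87_co
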