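import Pool.Agent.Work.MP_41df87_co.Lower

/-!
# The graphs `spiral m` have a monotone partition into four cliques whose box graph is `C₄`
-/

namespace Pool.Agent.Work.MP_41df87_co

open SimpleGraph

theorem spiral_adj_of_ne {m : ℕ} {u v : Fin 4 × Fin (m * m)} (h : u.1 ≠ v.1) :
    (spiral m).Adj u v ↔ cross m u v ∨ cross m v u := by
  simp [spiral, h]

/-- In the parts `0` and `2` the outside neighbourhood grows with the position. -/
theorem nbr_up {m : ℕ} {i : Fin 4} (hi : i = 0 ∨ i = 2) {x x' : Fin (m * m)} (hx : x ≤ x')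
    {w : Fin 4 × Fin (m * m)} (hw : i ≠ w.1) (h : (spiral m).Adj (i, x) w) :
    (spiral m).Adj (i, x') w := by
  rw [spiral_adj_of_ne hw] at h
  rw [spiral_adj_of_ne hw]
  have hx' : (x : ℕ) ≤ x' := hx
  rcases h with ⟨h1, h2, h3⟩ | ⟨_, h2, _⟩
  · refine Or.inl ⟨h1, h2, ?_⟩
    exact lt_of_lt_of_le h3 (Nat.add_le_add_right hx' _)
  · simp only at h2
    exfalso
    rcases hi with hi | hi <;> rcases h2 with h2 | h2 <;> rw [hi] at h2 <;> revert h2 <;> decide

/-- In the parts `1` and `3` the outside neighbourhood shrinks with the position. -/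
theorem nbr_down {m : ℕ} {i : Fin 4} (hi : i = 1 ∨ i = 3) {x x' : Fin (m * m)} (hx : x ≤ x')
    {w : Fin 4 × Fin (m * m)} (hw : i ≠ w.1) (h : (spiral m).Adj (i, x') w) :
    (spiral m).Adj (i, x) w := by
  rw [spiral_adj_of_ne hw] at h
  rw [spiral_adj_of_ne hw]
  have hx' : (x : ℕ) ≤ x' := hx
  rcases h with ⟨h1, _, _⟩ | ⟨h1, h2, h3⟩
  · simp only at h1
    exfalso
    rcases hi with hi | hi <;> rcases h1 with h1 | h1 <;> rw [hi] at h1 <;> revert h1 <;> decide
  · exact Or.inr ⟨h1, h2, lt_of_le_of_lt hx' h3⟩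

theorem up_or_down (i : Fin 4) : (i = 0 ∨ i = 2) ∨ (i = 1 ∨ i = 3) := by
  fin_cases i <;> decide

theorem spiral_partition {m : ℕ} (hm : 0 < m) :
    IsMonotoneCliquePartition (spiral m) (fun u : Fin 4 × Fin (m * m) => u.1) := by
  refine ⟨?_, ?_, ?_⟩
  · intro i
    exact ⟨(i, ⟨0, Nat.mul_pos hm hm⟩), rfl⟩
  · intro i u hu v hv huv
    have h1 : u.1 = i := hu
    have h2 : v.1 = i := hv
    exact Or.inl ⟨h1.trans h2.symm, huv⟩
  · rintro i ⟨i₁, x⟩ hu ⟨i₂, y⟩ hv
    have h1 : i₁ = i := hu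
    have h2 : i₂ = i := hv
    subst h1; subst h2
    rcases up_or_down i₂ with hi | hi
    · rcases le_total x y with hxy | hxy
      · left
        rintro w ⟨hw1, hw2⟩
        exact ⟨nbr_up hi hxy (fun h => hw2 h.symm) hw1, hw2⟩
      · right
        rintro w ⟨hw1, hw2⟩
        exact ⟨nbr_up hi hxy (fun h => hw2 h.symm) hw1, hw2⟩
    · rcases le_total x y with hxy | hxy
      · right
        rintro w ⟨hw1, hw2⟩
        exact ⟨nbr_down hi hxy (fun h => hw2 h.symm) hw1, hw2⟩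
      · left
        rintro w ⟨hw1, hw2⟩
        exact ⟨nbr_down hi hxy (fun h => hw2 h.symm) hw1, hw2⟩

theorem not_uniform_of {m : ℕ} {i j : Fin 4} {x y x' y' : ℕ} (hm : 0 < m * m)
    (hx : x < m * m) (hy : y < m * m) (hx' : x' < m * m) (hy' : y' < m * m)
    (hi : i = 0 ∨ i = 2) (hj : j = 1 ∨ j = 3)
    (h1 : y < x + (if i = 0 ∧ j = 3 then m else 0))
    (h2 : ¬ (y' < x' + (if i = 0 ∧ j = 3 then m else 0))) :
    ¬ UniformTo (spiral m) (part (fun u : Fin 4 × Fin (m * m) => u.1) i)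
      (part (fun u : Fin 4 × Fin (m * m) => u.1) j) := by
  rintro (h | h)
  · have := h (pt hm i x') rfl (pt hm j y') rfl
    rw [adj_pt hm hx' hy' hi hj] at this
    exact h2 this
  · have := h (pt hm i x) rfl (pt hm j y) rfl
    rw [adj_pt hm hx hy hi hj] at this
    exact this h1

theorem not_uniform {m : ℕ} (hm : 2 ≤ m) {i j : Fin 4} (hi : i = 0 ∨ i = 2)
    (hj : j = 1 ∨ j = 3) :
    ¬ UniformTo (spiral m) (part (fun u : Fin 4 × Fin (m * m) => u.1) i)
      (part (fun u : Fin 4 × Fin (m * m) => u.1) j) := by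
  have h4 : m * 2 ≤ m * m := Nat.mul_le_mul_left m hm
  by_cases h : i = 0 ∧ j = 3
  · apply not_uniform_of (x := 0) (y := 0) (x' := 0) (y' := m) (by omega) (by omega) (by omega)
      (by omega) (by omega) hi hj
    · rw [if_pos h]; omega
    · rw [if_pos h]; omega
  · apply not_uniform_of (x := 1) (y := 0) (x' := 0) (y' := 0) (by omega) (by omega) (by omega)
      (by omega) (by omega) hi hj
    · rw [if_neg h]; omega
    · rw [if_neg h]; omega

theorem uniform_of {m : ℕ} {i j : Fin 4} (hij : i ≠ j)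
    (h : ((i = 0 ∨ i = 2) ∧ (j = 0 ∨ j = 2)) ∨ ((i = 1 ∨ i = 3) ∧ (j = 1 ∨ j = 3))) :
    UniformTo (spiral m) (part (fun u : Fin 4 × Fin (m * m) => u.1) i)
      (part (fun u : Fin 4 × Fin (m * m) => u.1) j) := by
  right
  rintro ⟨i', x⟩ hx ⟨j', y⟩ hy hxy
  have h1 : i' = i := hx
  have h2 : j' = j := hy
  subst h1; subst h2
  rw [spiral_adj_of_ne hij] at hxy
  rcases hxy with ⟨a1, a2, _⟩ | ⟨a1, a2, _⟩ <;> simp only at a1 a2 <;>
    rcases h with ⟨b1, b2⟩ | ⟨b1, b2⟩ <;> rcases a1 with rfl | rfl <;>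
    rcases a2 with rfl | rfl <;> revert b1 b2 <;> decide

theorem UniformTo.symm' {V : Type} {G : SimpleGraph V} {X Y : Set V} (h : UniformTo G X Y) :
    UniformTo G Y X := by
  rcases h with h | h
  · exact Or.inl fun x hx y hy => (h y hy x hx).symm
  · exact Or.inr fun x hx y hy hxy => h y hy x hx hxy.symm

theorem spiral_box_adj {m : ℕ} (hm : 2 ≤ m) (i j : Fin 4) :
    (boxGraph (spiral m) (fun u : Fin 4 × Fin (m * m) => u.1)).Adj i j ↔
      (SimpleGraph.cycleGraph 4).Adj i j := by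
  have hL : (boxGraph (spiral m) (fun u : Fin 4 × Fin (m * m) => u.1)).Adj i j ↔
      (((i = 0 ∨ i = 2) ∧ (j = 1 ∨ j = 3)) ∨ ((i = 1 ∨ i = 3) ∧ (j = 0 ∨ j = 2))) := by
    constructor
    · rintro ⟨hij, h⟩
      rcases up_or_down i with hi | hi <;> rcases up_or_down j with hj | hj
      · exact absurd (uniform_of hij (Or.inl ⟨hi, hj⟩)) h
      · exact Or.inl ⟨hi, hj⟩
      · exact Or.inr ⟨hi, hj⟩
      · exact absurd (uniform_of hij (Or.inr ⟨hi, hj⟩)) h
    · rintro (⟨hi, hj⟩ | ⟨hi, hj⟩)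
      · refine ⟨?_, not_uniform hm hi hj⟩
        rcases hi with rfl | rfl <;> rcases hj with rfl | rfl <;> decide
      · refine ⟨?_, fun h => not_uniform hm hj hi h.symm'⟩
        rcases hi with rfl | rfl <;> rcases hj with rfl | rfl <;> decide
  rw [hL]
  clear hL
  revert i j
  decide

/-- The identity is an isomorphism from the box graph to the cycle of length four. -/
def spiralBoxIso {m : ℕ} (hm : 2 ≤ m) :
    boxGraph (spiral m) (fun u : Fin 4 × Fin (m * m) => u.1) ≃g SimpleGraph.cycleGraph 4 where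
  toEquiv := Equiv.refl _
  map_rel_iff' := by
    intro i j
    exact (spiral_box_adj hm i j).symm

/-- There is no logarithmic bound. -/
theorem no_log_bound (g : ℝ) : ∃ m : ℕ, 2 ≤ m ∧ ∀ c : ℕ, CliqueWidthLE c (spiral m) →
    g * Real.log (Fintype.card (Fin 4 × Fin (m * m))) < c := by
  obtain ⟨q, hq⟩ := exists_nat_ge (200 * (|g| + 1))
  have habs : 0 ≤ |g| := abs_nonneg g
  have hq2 : (200 : ℝ) ≤ q := by nlinarith
  have hq2' : 200 ≤ q := by exact_mod_cast hq2
  have hm : 2 ≤ q * q := by nlinarith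
  refine ⟨q * q, hm, ?_⟩
  intro c hc
  have h1 := spiral_lower (q * q) c (by omega) hc
  have h1' : (q : ℝ) * q ≤ 33 * c := by exact_mod_cast h1
  have hcard : (Fintype.card (Fin 4 × Fin (q * q * (q * q))) : ℝ) = 4 * (q : ℝ) ^ 4 := by
    simp
    ring
  rw [hcard]
  have hq0 : (0 : ℝ) < q := by linarith
  have hlog : Real.log (4 * (q : ℝ) ^ 4) ≤ 4 * q := by
    rw [Real.log_mul (by norm_num) (by positivity), Real.log_pow]
    have l1 : Real.log 4 ≤ 4 - 1 := Real.log_le_sub_one_of_pos (by norm_num)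
    have l2 : Real.log (q : ℝ) ≤ q - 1 := Real.log_le_sub_one_of_pos hq0
    push_cast
    linarith
  have hlog0 : 0 ≤ Real.log (4 * (q : ℝ) ^ 4) := by
    apply Real.log_nonneg
    have : (1 : ℝ) ≤ (q : ℝ) ^ 4 := one_le_pow₀ (by linarith)
    linarith
  have h2 : g * Real.log (4 * (q : ℝ) ^ 4) ≤ |g| * (4 * q) := by
    calc g * Real.log (4 * (q : ℝ) ^ 4) ≤ |g| * Real.log (4 * (q : ℝ) ^ 4) :=
          mul_le_mul_of_nonneg_right (le_abs_self g) hlog0
      _ ≤ |g| * (4 * q) := mul_le_mul_of_nonneg_left hlog habs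
  have h3 : 33 * (|g| * (4 * q)) < q * q := by
    have : 33 * (|g| * 4) < q := by linarith
    calc 33 * (|g| * (4 * q)) = (33 * (|g| * 4)) * q := by ring
      _ < q * q := mul_lt_mul_of_pos_right this hq0
  linarith

end Pool.Agent.Work.MP_41df87_co
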